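import Pool.Agent.H427.KA.Main

/-!
# Jacobians over `k(t)`, over almost all cyclic Kummer extensions of degree `ℓ ^ a`

Let `k` be the field with `q` elements, `K = k(t)`, and let `J` be the Jacobian of a smooth curve over `K`
(or any abelian variety over `K`) of dimension `g`. For a place `v` of `K` let `L_v = L_v(J, T)`, an
integral polynomial with constant coefficient one and of degree at most `h = 2 g`. Let `ℓ ^ a` divide
`q - 1`, `a > 0`. For a polynomial `Ψ` over `k` of degree `n` let `F_Ψ = K(Ψ ^ (1 / ℓ ^ a))`.

Let `W` be a set of polynomials of degree `n`, closed under the multiplication by constants, such that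
the multiplicities of the zeros of all `Ψ` in `W` are prime to `ℓ`, `J` has semistable reduction at the
zeros of `Ψ`, and `ℓ ^ a` divides `n` (or `n` is prime to `ℓ` and `J` has semistable reduction at
infinity): for example all squarefree polynomials of degree `n` which are prime to the places of additive
reduction. Then `F_Ψ` is a cyclic extension of degree `ℓ ^ a`, totally ramified at the zeros of `Ψ` (and
at infinity in the second case). For a character `χ` of `k` of order `ℓ ^ a` and `0 < j < ℓ ^ a` the
product `charProduct` for `χ ^ j` is `L(J ⊗ ψ, T) ^ (-1)` for a nontrivial character `ψ` of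
`Gal(F_Ψ / K)`: there are no invariants of inertia at the zeros of `Ψ`, since the inertia groups act
unipotently on the cohomology of `J`. By Grothendieck `L(J ⊗ ψ, T)` is a polynomial, and by the formalism
of Artin `L(J / F_Ψ, T) = L(J / K, T) P_Ψ(T)` for the polynomial `P_Ψ` as in `IsCoverPolynomial`.
-/

set_option autoImplicit false
set_option linter.all false
set_option maxHeartbeats 4000000

open Polynomial FF NumberField

namespace Pool.Agent.Results.MP_60d5ce_nt.AlmostAllKummer

open Pool.Agent.H427.KA

section defs

variable {k : Type} [Field k] {K : Type} [Field K] [NumberField K]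

/-- The product over the places `v` of the `L_v(T ^ (deg v))` is `R₂ / R₁`, and the `L_v` are polynomials
of degree at most `h` with the constant coefficient one. -/
structure IsEulerProduct (L : Place k (RatFunc k) → ℤ[X]) (h : ℕ) (R₁ R₂ : ℤ[X]) : Prop where
  factors : ∀ v, (L v).coeff 0 = 1 ∧ (L v).natDegree ≤ h
  constant : R₁.coeff 0 = 1 ∧ R₂.coeff 0 = 1
  product : inverseLFunction L * (R₁ : PowerSeries ℤ) = (R₂ : PowerSeries ℤ)

/-- `W` is a set of polynomials of degree `n` closed under the multiplication by constants, for `Ψ` in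
`W` the products `charProduct` of the characters `χ ^ j`, `0 < j < N`, are inverses of polynomials, and
`P Ψ` is the product of these polynomials. -/
structure IsFamily (χ : MulChar k (𝓞 K)) (N : ℕ) (L : Place k (RatFunc k) → ℤ[X]) (n : ℕ)
    (W : Finset k[X]) (P : k[X] → ℤ[X]) : Prop where
  degree : ∀ Ψ ∈ W, Ψ.natDegree = n
  constants : ∀ Ψ ∈ W, ∀ c : k, c ≠ 0 → C c * Ψ ∈ W
  entire : ∀ Ψ ∈ W, ∀ j ∈ Finset.Ico 1 N, ∃ Q : (𝓞 K)[X],
    charProduct L N Ψ (χ ^ j) * (Q : PowerSeries (𝓞 K)) = 1
  cover : ∀ Ψ ∈ W, IsCoverPolynomial L χ N Ψ (P Ψ)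

/-- The number `w μ + (q - 1) q ^ n h (1 + ∑_{d ≤ n} ℓ ^ (v_ℓ(d)) / d)`. -/
noncomputable def bound (q ℓ n h w μ : ℕ) : ℚ :=
  w * μ + (q - 1) * (q : ℚ) ^ n * (h * (1 + weight ℓ n))

end defs

open Classical in
/-- **The Birch–Swinnerton-Dyer formula over almost all Kummer extensions of `k(t)`.**

Let `L(J / K, T) = R₁ / R₂` (`R₂ = 1` if `J` has no constant part), let `μ₀` be the multiplicity modulo `ℓ`
of the central point `T = 1 / q` as a zero of `R₁` (`multOne`; `q` is one modulo `ℓ`), and
`w(n) = 1 + ∑_{d ≤ n} ℓ ^ (v_ℓ(d)) / d`, so `w(n) ≤ 2 + log n` for `n < ℓ`. Theorem, for all `n ≥ 1`: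

(1) The number of the `Ψ` in `W` such that `L(J / F_Ψ, s)` and `L(J / K, s)` have different orders of
vanishing at `s = 1` is at most `(#W μ₀ + (q - 1) q ^ n h w(n)) / (ℓ - 1)`.

(2) The sum over all `Ψ` in `W` of the difference of these orders of vanishing is at most
`a (1 - 1 / ℓ) (#W μ₀ + (q - 1) q ^ n h w(n))`.

Here `(q - 1) q ^ n` is the number of all polynomials of degree `n`. So if `W` contains the proportion
`δ` of all of them, the proportion of the exceptional `Ψ` in `W` is at most
`(μ₀ + 2 g w(n) / δ) / (ℓ - 1)`, and the average of the difference of the orders is at most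
`a (μ₀ + 2 g w(n) / δ)`.

Consequences. If `Q1` holds for `J` over `K`, then for all but the exceptional `Ψ` it follows from
Tate's inequality, rank `≤` order, that the rank of `J` over `F_Ψ` is equal to the rank over `K` and to
the order of vanishing of `L(J / F_Ψ, s)`; by Kato and Trihan `Q1` holds for `J` over `F_Ψ`. The
proportion of the exceptional `Ψ` tends to zero for `ℓ → ∞`, uniformly for all `n` up to `e ^ (o(ℓ))`;
the genus of `F_Ψ` and the degree of `L(J / F_Ψ, s)` are linear functions of `n ℓ ^ a`. (The known
results by equidistribution need that `q` is very large for given `n`.) This is unconditional for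
example for the Jacobians of all pencils of plane curves over `K`, as the total space is a rational
surface; by the formula of Shioda and Tate their ranks over `K` are unbounded (with the degree of the
curves; the `L`-functions are given in the hand-in `PencilsOfCurves`). For every `J`, without assumptions
about `Q1`, the average rank of `J` over the fields `F_Ψ` is at most the order of vanishing of
`L(J / K, s)` plus `a (μ₀ + 2 g w(n) / δ)`, a bound of the size `a g log n` for `n < ℓ`, also for small
`q`, where `L(J / F_Ψ, s)` has a degree of the size `g n ℓ ^ a`. -/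
theorem result (ℓ a : ℕ) (hℓ : ℓ.Prime) (ha : a ≠ 0) (k : Type) [Field k] [Finite k]
    (K : Type) [Field K] [NumberField K] [IsGalois ℚ K] (χ : MulChar k (𝓞 K))
    (hχ : orderOf χ = ℓ ^ a) (L : Place k (RatFunc k) → ℤ[X]) (h : ℕ) (R₁ R₂ : ℤ[X])
    (hL : IsEulerProduct L h R₁ R₂) (n : ℕ) (hn : 1 ≤ n) (W : Finset k[X]) (P : k[X] → ℤ[X])
    (hW : IsFamily χ (ℓ ^ a) L n W P) :
    (((W.filter fun Ψ => order k (P Ψ) ≠ 0).card : ℕ) : ℚ) * (ℓ - 1) ≤
      bound (Nat.card k) ℓ n h W.card (multOne ℓ R₁) ∧
    ((∑ Ψ ∈ W, order k (P Ψ) : ℕ) : ℚ) * ℓ ≤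
      a * (ℓ - 1) * bound (Nat.card k) ℓ n h W.card (multOne ℓ R₁) := by
  have key := average hℓ ha K hχ (fun v => (hL.factors v).1) (fun v => (hL.factors v).2)
    hL.constant.1 hL.constant.2 hL.product hn W hW.degree hW.constants hW.entire P hW.cover
  unfold bound
  refine ⟨le_trans (le_of_eq ?_) key.1, le_trans (le_of_eq ?_) key.2⟩
  · rw [Nat.cast_mul, Nat.cast_sub hℓ.pos, Nat.cast_one, mul_comm]
  · rw [Nat.cast_mul, mul_comm]

end Pool.Agent.Results.MP_60d5ce_nt.AlmostAllKummer
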