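import Pool.Agent.H456.PS.Out9

/-!
# The conjecture of Birch and Swinnerton-Dyer for a fifth of the elliptic curves over `F_q(t)` in height ordered families

`Eqn F d` (equations with `deg aᵢ ≤ i d`) and `cls` (isomorphism class over `F(t)`) are in `Pool.Agent.H456.RN.Defs`;
`SelInf` (the `2^∞`-Selmer group), `ShaTwoTrivial` (the 2-primary part of the Tate-Shafarevich group is trivial), `law` and
`share` (proportion) in `Pool.Agent.H456.Pub.Law`, `Pool.Agent.H456.Pub.Law2`, `Pool.Agent.H456.Pub.Sha` and
`Pool.Agent.H456.Pub.Def`; `Starred` in `Pool.Agent.H456.Pub.Star` and `starUnion` in `Pool.Agent.H456.Pub.Star2`.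
-/

open Polynomial Filter Pool.Agent.H456.EC
open Pool.Agent.H456.Pub (SelInf ShaTwoTrivial law share starUnion)

namespace Pool.Agent.Results.MP_60d5ce_nt.FifthOfStarredFamilies

/-- Let `F` be a finite field of odd characteristic, `K = F(t)` and `ε > 0`. There is `k₀` such that for every nonempty set
`A` of integers `k ≥ k₀` the elliptic curves over `K` whose starred fibres at the finite places have total degree `2 k` for
some `k` in `A` have positive lower density among all elliptic curves over `K` ordered by height, and for all sufficiently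
large `d` the proportion of the `E` among them of height at most `q ^ d` for which `E(K)` is finite, the `2^∞`-Selmer group
is trivial and the 2-primary part of the Tate-Shafarevich group is trivial differs by at most `ε` from
`∏_{j ≥ 0} (1 + 2⁻ʲ)⁻¹ = 0.2097...`. -/
theorem result (F : Type) [Field F] [Fintype F] (h2 : (2 : F) ≠ 0) (ε : ℝ) (hε : 0 < ε) :
    0.2097 < law 0 ∧ ∃ k₀ : ℕ, ∀ A : Set ℕ, A.Nonempty → (∀ k ∈ A, k₀ ≤ k) →
      (∃ δ : ℝ, 0 < δ ∧ ∀ᶠ d : ℕ in atTop, δ * ((cls '' Eqn F d).ncard : ℝ) ≤ ((starUnion F A d).ncard : ℝ)) ∧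
      ∀ᶠ d : ℕ in atTop,
        |share (starUnion F A d) (fun κ => Finite κ.out.toAffine.Point ∧ Nat.card (SelInf κ.out) = 1 ∧
          ShaTwoTrivial κ.out) - law 0| ≤ ε := by
  refine ⟨Pool.Agent.H456.PS.law_zero, ?_⟩
  obtain ⟨k₀, h⟩ := Pool.Agent.H456.PS.union_sha (F := F) h2 ε hε
  exact ⟨k₀, fun A hA hk => ⟨(h A hA hk).1, (h A hA hk).2.mono fun d hd => hd.2.2⟩⟩

end Pool.Agent.Results.MP_60d5ce_nt.FifthOfStarredFamilies
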