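import Pool.Agent.H427.PC.Pen
import Pool.Graph.R_pool_sql_team_seeded_843ab51a.Results.MP_60d5ce_nt.LeadingTermsModL

/-!
# Jacobians of pencils of curves on surfaces, over all Galois extensions of prime power degree
-/

set_option autoImplicit false
set_option linter.all false
set_option maxHeartbeats 4000000

open Polynomial FF Module Pool.Agent.W343.BSD

open scoped LinearAlgebra.Projectivization

namespace Pool.Agent.Results.MP_60d5ce_nt.PencilsOfCurves

open Pool.Agent.H427.PC Pool.Agent.Results.MP_60d5ce_nt.LeadingTermsModL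

/-- **Jacobians of pencils of curves on surfaces, over all Galois extensions of prime power degree.**

Let `k` be the field with `q` elements, `Y` a surface over `k` in projective space (the zeros of the forms
`G i`) with `1 + q ^ (2 n) + p_n(D)` points over the extension of degree `n` of `k`; for a smooth
projective surface with first Betti number `0` this holds with the characteristic polynomial `D` of
Frobenius on the second cohomology; `D = 1 - q T` for the projective plane. Let `A`, `B` be forms of the
same degree, with finitely many geometric common zeros on `Y`; their closed points have the degrees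
`m i`. Let `C` be the curve `A = t B` on `Y` over `K = k(t)` (smooth, or with unibranch singularities),
`J` the Jacobian of its normalization, and `P_v = L_v(J, T)` for the places `v` of `K`. So the members of the
pencil over `v` have `1 + q_v ^ j - p_j(P_v) + p_j(N_v)` points over the extension of degree `j` of the
residue field of `v`, where `N_v = 1` for almost all `v`; for example for a regular total space
`N_v = ∏ (1 - (q_v T) ^ d)` over the irreducible components of the member over `v`, of degrees `d` over
the residue field, except for one factor `1 - q_v T`. We write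
`U (1 - q T) ^ 2 ∏_v N_v(T ^ (deg v)) = D ∏_i (1 - (q T) ^ (m i))`.

(1) `L(J / K, T) = U`. So the order of vanishing at `s = 1` is the multiplicity of the zero `1 / q` of
`D`, minus `2`, plus the number of the closed base points, minus the number of the `(v, d)` as above.

(2) Let there be one closed base point, of degree `m`, let `N_v = 1` for all `v` (the members are
geometrically irreducible, or multiples of such curves), and let `D = (1 - q T) Q` (`Q = 1` for the
plane). Then `L(J / K, T) = Q(T) (1 + q T + ... + (q T) ^ (m - 1))`, with the value `m Q(1 / q)` at `s = 1`.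
Example (`m = 1`, `Q = 1`): all the curves `f(x, y) = t`, where `f = c y ^ a + c' x ^ b + ...` with coprime
`a`, `b`, and lower terms for the weights `b` of `y` and `a` of `x`; here `L(J / K, T) = 1`. Example: all
curves `f(x, y) = t`, where the leading form of `f` is irreducible of degree `m`, with irreducible members.

(3) Let `ℓ` be any prime different from the characteristic and `L` any finite Galois extension of `K` of
degree a power of `ℓ`, with any group and any field of constants `k'`, with `q'` elements. Let
`P'_w = L_w(J, T)` for the places `w` of `L`, and let the zeros of `P'_w` be the powers of those of `P_v` with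
the residue degree as exponent for `w` over `v`. (This is so if `v` is unramified in `L` or the
reduction of `J` at `v` is semistable, and also if the inertia group at `v` acts on the cohomology of `J`
through a group of order prime to `ℓ`.) Let `L(J / L, T) = R` be a polynomial (`J` has no constant part).
Then the leading coefficients of `R` and `U` modulo `ℓ` at the central points are equal. If
`P_v(1 / q_v)` is prime to `ℓ` for all ramified places `v` (for good reduction: the number of points of
the reduction of `J` is prime to `ℓ`), then `L(J / L, 1)` is congruent to `L(J / K, 1) = U(1 / q)` modulo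
`ℓ`. So if in (2) also `m Q(1 / q)` is prime to `ℓ`, then `L(J / L, 1)` is not zero.

Consequence: for the pencils in (2), for example for all the curves `f(x, y) = t` above, and for all
primes `ℓ` prime to `p m Q(1 / q)`, the order of vanishing of `L(J / L, s)` at `s = 1` is zero for all
these `L`; so `J(L)` is finite by Tate's inequality, and `Q1` holds for `J` over `L` by Kato and Trihan.
These are infinitely many extensions, of unbounded genus and with any Galois group of `ℓ`-power order. -/
theorem result (k : Type) [Field k] [Finite k] (M s b : ℕ)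
    (G : Fin s → MvPolynomial (Fin (M + 1)) k) (A B : MvPolynomial (Fin (M + 1)) k) (D : ℤ[X])
    (m : Fin b → ℕ) (h : IsPencil G A B D m) (P N : Place k (RatFunc k) → ℤ[X])
    (hP : ∀ v, (P v).coeff 0 = 1) (hN : ∀ v, (N v).coeff 0 = 1)
    (hc : ∀ v, Counts G A B v (P v) (N v)) (Z : Finset (Place k (RatFunc k)))
    (hZ : ∀ v, v ∉ Z → N v = 1) (U : ℤ[X])
    (hU : U * (1 - C (Nat.card k : ℤ) * X) ^ 2 * ∏ v ∈ Z, expand ℤ (S.deg v) (N v) =
      D * ∏ i, (1 - C ((Nat.card k : ℤ) ^ m i) * X ^ m i))
    (Λ : PowerSeries ℤ) (hΛ : IsProduct k P Λ) :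
    Λ = (U : PowerSeries ℤ) ∧
    (∀ (Q : ℤ[X]) (i : Fin b), D = (1 - C (Nat.card k : ℤ) * X) * Q → Z = ∅ → b = 1 →
      U = Q * ∑ j ∈ Finset.range (m i), C ((Nat.card k : ℤ) ^ j) * X ^ j ∧
      ∀ (ℓ : ℕ) [Fact ℓ.Prime], (ℓ : k) ≠ 0 →
        value ℓ (Nat.card k) 1 U = (m i : ZMod ℓ) * value ℓ (Nat.card k) 1 Q) ∧
    ∀ (ℓ t : ℕ) [Fact ℓ.Prime] (k' L : Type) [Field k'] [Finite k'] [Field L] [Algebra k' L]
      [Algebra k k'] [Algebra k L] [Algebra (RatFunc k) L] [IsScalarTower k (RatFunc k) L]
      [IsScalarTower k k' L] [FiniteDimensional (RatFunc k) L] [IsGalois (RatFunc k) L],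
      IsCurveField k' L → (ℓ : k) ≠ 0 → finrank (RatFunc k) L = ℓ ^ t →
      ∀ (P' : Place k' L → ℤ[X]) (Λ' : PowerSeries ℤ) (R : ℤ[X]), (∀ w, (P' w).coeff 0 = 1) →
        (∀ (v : Place k (RatFunc k)) (w : Place k' L) (e f : ℕ), LiesOver w v e →
          Nat.card (S.Res w) = Nat.card (S.Res v) ^ f → IsPower f (P v) (P' w)) →
        IsProduct k' P' Λ' → Λ' = (R : PowerSeries ℤ) →
        lead ℓ (Nat.card k') 1 R = lead ℓ (Nat.card k) 1 U ∧
        ((∀ v : Place k (RatFunc k), Ramified k' L v →
            value ℓ (Nat.card (S.Res v)) 1 (P v) ≠ 0) →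
          value ℓ (Nat.card k') 1 R = value ℓ (Nat.card k) 1 U ∧
          (value ℓ (Nat.card k) 1 U ≠ 0 →
            (R.map (Int.castRingHom ℚ)).eval (Nat.card k' : ℚ)⁻¹ ≠ 0)) := by
  classical
  set q := Nat.card k with hq
  have hfin : ∀ n, {v : Place k (RatFunc k) | v.deg ≤ n}.Finite := fun n =>
    Pool.Agent.W343.BSD.places_fin n
  have hd : ∀ v : Place k (RatFunc k), v.deg ≠ 0 := fun v =>
    (Pool.Agent.W343.BSD.deg_pos' v).ne'
  have h1 := product h hP hN hc
  have h2 : eul (fun v : Place k (RatFunc k) => v.deg) N =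
      ((∏ v ∈ Z, expand ℤ (v.deg) (N v) : ℤ[X]) : PowerSeries ℤ) := by
    unfold eul
    rw [eulerProd_of_finset hfin (expand_mod hd hN) Z (fun v hv => by rw [hZ v hv]; simp),
      ← Polynomial.coeToPowerSeries.ringHom_apply (φ := ∏ v ∈ Z, expand ℤ (v.deg) (N v)), map_prod]
    rfl
  have h3 : Λ * eul (fun v : Place k (RatFunc k) => v.deg) P = 1 := by
    have h4 : Λ * eulerProd (fun v : Place k (RatFunc k) => S.deg v)
      (fun v => ((expand ℤ (S.deg v) (P v) : ℤ[X]) : PowerSeries ℤ)) = 1 := hΛ
    simp only [S.deg_eq] at h4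
    exact h4
  have hfac1 : fac q 1 = 1 - C (q : ℤ) * X := by
    unfold fac
    rw [pow_one, pow_one]
  have hUq : U * fac q 1 ^ 2 * ∏ v ∈ Z, expand ℤ (v.deg) (N v) = D * ∏ i, fac q (m i) := by
    rw [hfac1]
    simp only [S.deg_eq] at hU
    exact hU
  have hne : ((fac q 1 ^ 2 * ∏ v ∈ Z, expand ℤ (v.deg) (N v) : ℤ[X]) : PowerSeries ℤ) ≠ 0 := by
    intro h0
    have h5 : (fac q 1 ^ 2 * ∏ v ∈ Z, expand ℤ (v.deg) (N v) : ℤ[X]).coeff 0 = 0 := by
      rw [← Polynomial.coeff_coe, h0, map_zero]
    have h6 : (∏ v ∈ Z, expand ℤ (v.deg) (N v) : ℤ[X]).coeff 0 = 1 := by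
      rw [← constantCoeff_apply, map_prod]
      refine Finset.prod_eq_one fun v _ => ?_
      rw [constantCoeff_apply, coeff_expand (Nat.pos_of_ne_zero (hd v))]
      simp [hN v]
    rw [mul_coeff_zero, h6, mul_one, ← constantCoeff_apply, map_pow, constantCoeff_apply,
      fac_coeff_zero q one_pos, one_pow] at h5
    exact one_ne_zero h5
  have h4 : eul (fun v : Place k (RatFunc k) => v.deg) P * (U : PowerSeries ℤ) = 1 := by
    apply mul_right_cancel₀ hne
    rw [h2, ← hUq] at h1
    rw [one_mul, mul_assoc, ← Polynomial.coe_mul, ← mul_assoc, h1, Polynomial.coe_mul, mul_comm]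
  have h5 : Λ = (U : PowerSeries ℤ) := by
    calc Λ = Λ * (eul (fun v : Place k (RatFunc k) => v.deg) P * (U : PowerSeries ℤ)) := by
          rw [h4, mul_one]
    _ = _ := by rw [← mul_assoc, h3, one_mul]
  have hU0 : U.coeff 0 = 1 := by
    have h6 := constantCoeff_eul hfin hd hP
    have h7 := congrArg PowerSeries.constantCoeff h4
    rw [map_mul, h6, one_mul, map_one, ← PowerSeries.coeff_zero_eq_constantCoeff_apply,
      Polynomial.coeff_coe] at h7
    exact h7
  refine ⟨h5, ?_, ?_⟩
  · intro Q i hD hZ0 hb
    subst hb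
    have hUm : U = Q * ∑ j ∈ Finset.range (m i), C ((q : ℤ) ^ j) * X ^ j := by
      have e0 : fac q 1 ≠ 0 := by
        intro h0
        have := fac_coeff_zero q one_pos
        rw [h0] at this
        simp at this
      have e1 : U * fac q 1 = Q * fac q (m i) := by
        apply mul_right_cancel₀ e0
        rw [hZ0, Finset.prod_empty, mul_one, hD, ← hfac1, Fin.prod_univ_one] at hUq
        have : i = 0 := Subsingleton.elim _ _
        rw [this, mul_assoc, ← pow_two, hUq]
        ring
      apply mul_right_cancel₀ e0
      rw [e1, hfac1, mul_assoc]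
      congr 1
      have e2 := mul_neg_geom_sum (C (q : ℤ) * X) (m i)
      rw [mul_comm] at e2
      have e3 : ∀ j, C ((q : ℤ) ^ j) * X ^ j = (C (q : ℤ) * X : ℤ[X]) ^ j := by
        intro j
        rw [mul_pow, C_pow]
      simp only [e3]
      rw [e2]
      unfold fac
      rw [e3]
    refine ⟨hUm, ?_⟩
    intro ℓ _ hℓ
    have hqℓ : ((q : ℕ) : ZMod ℓ) ≠ 0 := by
      intro h0
      rw [ZMod.natCast_eq_zero_iff] at h0
      obtain ⟨p, hp⟩ := CharP.exists k
      have hpp : p.Prime := CharP.char_is_prime k p
      have hf : Fintype k := Fintype.ofFinite k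
      obtain ⟨n, hn⟩ := FiniteField.card k p
      rw [hq, Nat.card_eq_fintype_card, hn.2] at h0
      have h6 := (Nat.prime_dvd_prime_iff_eq (Fact.out : ℓ.Prime) hpp).1
        ((Fact.out : ℓ.Prime).dvd_of_dvd_pow h0)
      apply hℓ
      rw [h6]
      exact CharP.cast_eq_zero k p
    unfold value
    rw [hUm, Polynomial.map_mul, eval_mul, Polynomial.map_sum, eval_finset_sum, mul_comm]
    congr 1
    have : ∀ j ∈ Finset.range (m i), ((C ((q : ℤ) ^ j) * X ^ j : ℤ[X]).map
        (Int.castRingHom (ZMod ℓ))).eval ((((q : ℕ) : ZMod ℓ) ^ 1)⁻¹) = 1 := by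
      intro j _
      simp only [Polynomial.map_mul, Polynomial.map_pow, map_C, map_X, eval_mul, eval_C, eval_pow,
        eval_X, pow_one]
      simp only [map_pow, map_natCast]
      rw [← mul_pow, mul_inv_cancel₀ hqℓ, one_pow]
    rw [Finset.sum_congr rfl this]
    simp
  · intro ℓ t _ k' L _ _ _ _ _ _ _ _ _ _ _ hL hℓ hfr P' Λ' R hP' hPP' hΛ' hR
    have i0 : FF.IsFF k (RatFunc k) := Pool.Agent.W309.RF.isFF_rat
    have hK : IsCurveField k (RatFunc k) :=
      ⟨i0.ess, i0.trdeg, fun x hx => Pool.Agent.W309.RF.const_rat x hx⟩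
    have key := LeadingTermsModL.result k (RatFunc k) k' L hK hL ℓ t hℓ hfr 1 P P' hP hP' ∅
      (fun v w e f _ h1 h2 => hPP' v w e f h1 h2) Λ Λ' hΛ hΛ' U 1 R 1 (by simp)
      (by rw [h5]; simp) (by simp) (by rw [hR]; simp)
    obtain ⟨k1, k2, k3, k4⟩ := key
    obtain ⟨-, k5, k6, k7, -⟩ := k4 rfl rfl rfl
    have l1 : ∀ c : ℕ, lead ℓ c 1 (1 : ℤ[X]) = 1 := by
      intro c
      unfold lead leadAt multAt
      rw [Polynomial.map_one]
      have : rootMultiplicity ((((c : ℕ) : ZMod ℓ) ^ 1)⁻¹) (1 : (ZMod ℓ)[X]) = 0 := by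
        apply rootMultiplicity_eq_zero
        simp [IsRoot]
      rw [this, pow_zero, one_mul, pow_zero, divByMonic_one, eval_one]
    have hemp : Above k' L (∅ : Finset (Place k (RatFunc k))) = ∅ := by
      ext w
      simp [Above]
    refine ⟨?_, ?_⟩
    · rw [l1, l1, hemp] at k3
      simpa using k3
    · intro hram
      have k8 := k7 hram
      refine ⟨k8, ?_⟩
      intro hne0 h0
      rw [pow_one, h0] at k6
      obtain ⟨a, d, hd1, hd2, hd3⟩ := k6
      apply hne0
      rw [← k8, hd3]
      have hd0 : d ≠ 0 := by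
        rintro rfl
        exact hd1 (dvd_zero _)
      have ha : a = 0 := by
        have h7 : (a : ℚ) / d = 0 := hd2.symm
        rw [div_eq_zero_iff] at h7
        rcases h7 with h7 | h7
        · exact_mod_cast h7
        · exact absurd (by exact_mod_cast h7) hd0
      rw [ha]
      simp

end Pool.Agent.Results.MP_60d5ce_nt.PencilsOfCurves
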