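import Pool.Agent.H859.AL.Seq
import Pool.Agent.H428.W.Cmp

/-!
# The Birch-Swinnerton-Dyer formula for almost all hyperelliptic Jacobians over rational function fields
# after small quadratic twists, for all their forms and isogeny factors, over all given 2-extensions

Let `k` be any finite field of odd characteristic, `q` the number of its elements, `K = k(t)`, and let
`1 ≤ g_1, ..., g_r ≤ G`, `m ≠ 0` a polynomial over `k`. For each `j` a residue class `f₁_j` modulo `m ^ 2` is
given; `f₁_j` is monic of degree `2 g_j + 1` over `k[t]`, and its discriminant is not divisible by the square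
of a prime divisor of `m`. Let `F_N` be the set of the `r`-tuples of polynomials
`f_j(x) = x ^ (2 g_j + 1) + ∑ f_(j,i) x ^ i` over `k[t]` with `deg f_(j,i) ≤ 2 N (2 g_j + 1 - i)` for which, for
all `j`,

* the polynomial over `k` with the coefficients of `t ^ (2 N (2 g_j + 1 - i))` in the `f_(j,i)` is
  irreducible;
* the discriminant of `f_j` is squarefree;
* `f_j` is congruent to `f₁_j` modulo `m ^ 2`.

For a finite set `T` of primes of `k[t]` and `f` let `C(f, T)` be the class of the finite Galois extensions
`M` of `K` of 2-power degree in which all `Q ∈ T` split completely and in which only such primes of `k[t]`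
are ramified modulo which `f` is irreducible (there is no condition at infinity; the class contains the
constant extensions of 2-power degree in which the `Q ∈ T` split and infinitely many ramified quadratic
extensions, and it is closed under composita).

Theorem. (1) `F_N` has positive density in the set of all the tuples of monic polynomials of the given
degrees and height.

(2) There is a constant `C` such that for EVERY finite set `T` of primes `Q` of `k[t]` with
`q ^ (deg Q) ≥ 4 G + 3` and for all large `N`, for all but at most `C (1 - 1 / (32 G)) ^ |T|` times the number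
of the tuples in `F_N`, there are divisors `D_1, ..., D_r` of the product of the primes in `T` such that for
ALL the fields `M` which belong to all the classes `C(f_j, T)` and ALL the fields `E` between `K` and `M` the
Jacobians `J_j` of the curves `y ^ 2 = D_j ^ (2 g_j + 1) f_j(x / D_j)` have the following properties.

* Multiplication by two is bijective on `J_j(E)`, and all classes of 2-power order in the Tate-Shafarevich
  group of `J_j` over `E` are zero, even without conditions at the places over infinity.
* (`HoldsForForms`) Let `B` be ANY field over which `E` is finite and Galois, `S` a Dedekind ring with the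
  field of fractions `B` such that the integral closure `R'` of `k[t]` in `E` is integral over `S`, and `A`
  ANY abelian variety over `B` for which there are homomorphisms `A → P → A` over `E` with composite `n`,
  where `P` is a product of some of the `J_j`, with repetitions. Then `n [E : B] A(B)` is contained in
  `2 ^ e A(B)` for all `e`, and `n [E : B]` kills the 2-primary part of the Tate-Shafarevich group of `A` over
  `B`. If `n` is odd, for instance if `A` is a form over `B` of `P`, or `A` is an isogeny factor of `P` over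
  `E` of odd exponent, then multiplication by two is bijective on `A(B)` and the 2-primary part of the
  Tate-Shafarevich group of `A` over `B` is zero, whatever the degree `[E : B]` is.

(3) EVERY finite Galois extension `L` of `K` of 2-power degree which is ramified only over prime divisors of
`m` modulo which all the `f₁_j` are irreducible belongs to all the classes `C(f_j, T)`, for all tuples in
`F_N` and all `N`, if the primes in `T` split completely in `L`; and there are infinitely many such primes.
So one constant `C` is good for all the given fields `L`, of any degree over `K`.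

Consequences for the problem. Let `A` over `B` be as in (2) with `n ≠ 0`. As `A(B)` is finitely generated, it
is finite. By Artin, Tate, Milne, Kato and Trihan the whole group `Sha(A/B)` is finite and the conjecture
of Birch and Swinnerton-Dyer with the formula for the leading coefficient is true for `A` over `B`: so Q1
holds for ALL the curves `X_0` over ALL the fields `B` with Jacobian isogenous over such an `E` to a factor of
a product of the `J_j`. This concerns for instance the twists of `J_j` by all characters of `Gal(E/B)`, the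
Weil restrictions, the Jacobians of all the curves over `B` which are over `E` dominated by `X_j`
(or whose Jacobian is dominated by products of the `J_j`), all forms of `J_j` over `k₀(s)`, where `s` is a
polynomial in `t` with coefficients in a subfield `k₀` such that `k(t)` is Galois over `k₀(s)`, for example
`s = t ^ d`, `k` containing the roots of unity of order `d`. By (3) this happens over each of the
infinitely many fields `L` given in advance, and for every `ε > 0` there is a polynomial `P_ε` such that for
large `N` all but `ε |F_N|` of the tuples in `F_N` have twists by divisors of `P_ε` with these properties.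

Here `J(E)` is given as the Picard group of the affine coordinate ring `E[x, y] / (y ^ 2 - F)` (the curve
has one point at infinity, which is rational), and the Tate-Shafarevich group is defined by continuous
cocycles on the absolute Galois group with values in `J` of the separable closure. An abelian variety `A`
over `B` is given by its points over the separably closed extension fields of `B` (`GroupFunctor`).

What was known. An earlier version of this file (until 23:00 of the day of this run) had the part (2) for
one curve and without the forms (it is the engine of several of my hand-ins on other pages). The library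
and this run have positive proportions of curves without a twist (over a class of fields depending on the
curve), and, in `MP_72e2e6_nt.FormsOverPExtensions`, the forms for single curves with special geometric
properties; the transfer to the forms by restriction and corestriction is the one of helper428
(`Pool/Agent/H428/V`). Mazur and Rubin, Yu and others show that a curve has twists with trivial
Selmer groups over one field, where the twist depends on the curve. New here: density tending to one with
divisors of one polynomial, uniformly over all the fields `M`, `E`, `B`; all tuples; all forms; and all the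
given extensions `L` with one constant.
-/

set_option autoImplicit false
set_option linter.all false

namespace Pool.Agent.Results.MP_60d5ce_nt.SmallTwistOfAlmostAll

open Polynomial Filter IsDedekindDomain Topology
open Pool.Agent.N874.Jac (UniquelyTwoDivisible ShaTwoTrivial)
open Pool.Agent.H428.V.B (GroupFunctor IsFactor jacobians NoPart NoPartUpTo)
open scoped Classical

/-- The monic polynomials of degree `2 g + 1` over `k[t]` and height at most `2 N`. -/
def Polynomials (k : Type) [Field k] (g N : ℕ) : Set k[X][X] :=
  {f | f.Monic ∧ f.natDegree = 2 * g + 1 ∧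
    ∀ j ≤ 2 * g, (f.coeff j).natDegree ≤ 2 * N * (2 * g + 1 - j)}

/-- The reduction at infinity of `f`. -/
noncomputable def atInfinity {k : Type} [Field k] (g N : ℕ) (f : k[X][X]) : k[X] :=
  X ^ (2 * g + 1) + ∑ j ∈ Finset.range (2 * g + 1),
    C ((f.coeff j).coeff (2 * N * (2 * g + 1 - j))) * X ^ j

/-- The curves `y ^ 2 = f(x)` over `k(t)`: `f` is irreducible at infinity, with squarefree discriminant, congruent
to `f₁` modulo `m ^ 2`. -/
def Family {k : Type} [Field k] (g : ℕ) (m : k[X]) (f₁ : k[X][X]) (N : ℕ) : Set k[X][X] :=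
  {f ∈ Polynomials k g N | Irreducible (atInfinity g N f) ∧ Squarefree f.discr ∧
    ∀ j, m ^ 2 ∣ f.coeff j - f₁.coeff j}

/-- All `r`-tuples of monic polynomials of the degrees `2 g_j + 1` and height at most `2 N`. -/
def AllTuples (k : Type) [Field k] {r : ℕ} (g : Fin r → ℕ) (N : ℕ) : Set (Fin r → k[X][X]) :=
  {f | ∀ j, f j ∈ Polynomials k (g j) N}

/-- The family `F_N` of `r`-tuples of curves. -/
def Tuples {k : Type} [Field k] {r : ℕ} (g : Fin r → ℕ) (m : k[X]) (f₁ : Fin r → k[X][X]) (N : ℕ) :
    Set (Fin r → k[X][X]) :=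
  {f | ∀ j, f j ∈ Family (g j) m (f₁ j) N}

/-- Multiplication by two is bijective on `J(E)`, `J` the Jacobian of `y ^ 2 = F(x)`, and every class of
2-power order in `H ^ 1 (E, J)` which is zero over the completions of `E` at all maximal ideals of `R` is
zero. -/
def NoTwoPart (R : Type) {E : Type} [Field E] [CommRing R] [IsDedekindDomain R] [Algebra R E]
    [IsFractionRing R E] (F : E[X]) : Prop :=
  UniquelyTwoDivisible F ∧ ShaTwoTrivial F R

/-- `f` is irreducible modulo `P`. -/
def IrreducibleMod {k : Type} [Field k] (f : k[X][X]) (P : k[X]) : Prop :=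
  Irreducible (f.map (Ideal.Quotient.mk (Ideal.span {P})))

/-- `P` is unramified in the extension `R` of `k[t]`. -/
def Unramified {k : Type} [Field k] (R : Type) [CommRing R] [Algebra k[X] R] (P : k[X]) : Prop :=
  ∀ w : HeightOneSpectrum R, algebraMap k[X] R P ∈ w.asIdeal → algebraMap k[X] R P ∉ w.asIdeal ^ 2

/-- `Q` splits completely in the extension `R` of `k[t]`: it is unramified, and every element of `R` is
congruent to a polynomial modulo every prime over `Q`. -/
def SplitsCompletely {k : Type} [Field k] (R : Type) [CommRing R] [Algebra k[X] R] (Q : k[X]) :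
    Prop :=
  Unramified R Q ∧ ∀ w : HeightOneSpectrum R, algebraMap k[X] R Q ∈ w.asIdeal →
    ∀ y : R, ∃ c : k[X], y - algebraMap k[X] R c ∈ w.asIdeal

/-- The (finite Galois) extension `M` of `K`, in which `R` is the integral closure of `k[t]`, belongs to
the class `C(f, T)`: it has 2-power degree, all `Q ∈ T` split completely in it, and only such primes are
ramified in it modulo which `f` is irreducible. -/
structure InClass {k : Type} [Field k] (K : Type) [Field K] (T : Finset k[X]) (f : k[X][X])
    (M : Type) [Field M] [Algebra K M] (R : Type) [CommRing R] [Algebra k[X] R] : Prop where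
  degree : ∃ n : ℕ, Module.finrank K M = 2 ^ n
  splits : ∀ Q ∈ T, SplitsCompletely R Q
  ramified : ∀ P : k[X], Irreducible P → Unramified R P ∨ IrreducibleMod f P

/-- Let `R'` be a Dedekind ring with the field of fractions `E`, and `J_j` the Jacobian of `y ^ 2 = F_j(x)`
over `E`. For ALL the fields `B` (with the Dedekind ring `S`, of which `R'` is an integral extension) such
that `E` is a finite Galois extension of `B`, and ALL the abelian varieties (group functors) `A` over `B`
for which there are homomorphisms `A → P → A` over `E` with composite `n`, where `P` is a product of some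
of the `J_j` (with repetitions): all `n [E : B] Q` with `Q` in `A(B)` are divisible by all powers of two in
`A(B)`, and the 2-primary part of the Tate-Shafarevich group of `A` over `B` is killed by `n [E : B]`. If
`n` is odd then multiplication by two is bijective on `A(B)`, and this 2-primary part is zero. -/
def HoldsForForms (R' : Type) {E : Type} [Field E] [CommRing R'] [IsDedekindDomain R']
    [Algebra R' E] [IsFractionRing R' E] {r : ℕ} (F : Fin r → E[X]) : Prop :=
  ∀ (B S : Type) [Field B] [CommRing S] [IsDedekindDomain S] [Algebra S B] [IsFractionRing S B]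
    [Algebra B E] [FiniteDimensional B E] [IsGalois B E] (ι : S →+* R'), ι.IsIntegral →
    (∀ s, algebraMap B E (algebraMap S B s) = algebraMap R' E (ι s)) →
    ∀ (I : Type) (i : I → Fin r) (A : GroupFunctor B) (n : ℕ),
    IsFactor A (jacobians (fun _ => 2) fun l => F (i l)) n →
      NoPartUpTo A S 2 (n * Module.finrank B E) ∧ (Odd n → NoPart A S 2)

/-- There are divisors `D_1, ..., D_r` of the product of `T` such that for all the fields `M` which belong
to all the classes `C(f_j, T)` and for all the fields `E` between `K = k(t)` and `M` the quadratic twists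
by `D_j` of the Jacobians of `y ^ 2 = f_j(x)`, the Jacobians of `y ^ 2 = D_j ^ (2 g_j + 1) f_j(x / D_j)`,
have no 2-part over `E`, and the same holds for all their forms. Here `R` is the integral closure of
`k[t]` in `M`, and `R'` that in `E`. -/
def HasGoodTwists {k : Type} [Field k] (K : Type) [Field K] [Algebra k[X] K] (T : Finset k[X])
    {r : ℕ} (f : Fin r → k[X][X]) : Prop :=
  ∃ D : Fin r → k[X], (∀ j, D j ∣ ∏ Q ∈ T, Q) ∧
  ∀ (M : Type) [Field M] [Algebra K M] [Algebra k[X] M] [IsScalarTower k[X] K M]
    [FiniteDimensional K M] [IsGalois K M] (R : Type) [CommRing R] [IsDedekindDomain R]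
    [Algebra R M] [IsFractionRing R M] [Algebra k[X] R] [IsScalarTower k[X] R M]
    [IsIntegralClosure R k[X] M], (∀ j, InClass K T (f j) M R) →
    ∀ (E : IntermediateField K M) (R' : Type) [CommRing R'] [IsDedekindDomain R'] [Algebra R' E]
      [IsFractionRing R' E] [Algebra k[X] R'] [IsScalarTower k[X] R' E]
      [IsIntegralClosure R' k[X] E],
      (∀ j : Fin r, NoTwoPart R' (((f j).scaleRoots (D j)).map (algebraMap k[X] E))) ∧
      HoldsForForms R' fun j : Fin r => ((f j).scaleRoots (D j)).map (algebraMap k[X] E)

/-- The two notations for `J(E)`. -/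
theorem div_conv {E : Type} [Field E] {F : E[X]}
    (h : Function.Bijective fun P : Pool.Agent.Y713.Jac.J 2 F E => P ^ 2)
    (P : Pool.Agent.Y160.SL.Jac 2 F E) : ∃! Q : Pool.Agent.Y160.SL.Jac 2 F E, 2 • Q = P := by
  obtain ⟨Q, hQ⟩ := h.2 (Pool.Agent.H428.W.toM P)
  have hQ : Q ^ 2 = Pool.Agent.H428.W.toM P := hQ
  refine ⟨Pool.Agent.H428.W.ofM Q, ?_, ?_⟩
  · apply Pool.Agent.H428.W.toM_inj
    have h1 := Pool.Agent.H428.W.toM_nsmul (ℓ := 2) (F := F) 2 (Pool.Agent.H428.W.ofM Q)
    rw [Pool.Agent.H428.W.toM_ofM] at h1
    exact h1.trans hQ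
  · intro Q' hQ'
    apply Pool.Agent.H428.W.toM_inj
    rw [Pool.Agent.H428.W.toM_ofM]
    apply h.1
    have h1 := Pool.Agent.H428.W.toM_nsmul (ℓ := 2) (F := F) 2 Q'
    have h4 : Pool.Agent.H428.W.toM (2 • Q') = Pool.Agent.H428.W.toM P :=
      congrArg Pool.Agent.H428.W.toM hQ'
    exact (h1.symm.trans h4).trans hQ.symm

/-- The transfer to the forms. -/
theorem forms_of {E R' : Type} [Field E] [CommRing R'] [IsDedekindDomain R']
    [Algebra R' E] [IsFractionRing R' E] {r : ℕ} {F : Fin r → E[X]} (h2 : (2 : E) ≠ 0)
    (hm : ∀ j, (F j).Monic) (hodd : ∀ j, Odd (F j).natDegree) (hs : ∀ j, (F j).Separable)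
    (h : ∀ j, NoTwoPart R' (F j)) : HoldsForForms R' F := by
  intro B S _ _ _ _ _ _ _ _ ι hι1 hι2 I i A n hA
  let i1 : Algebra S R' := ι.toAlgebra
  let i2 : Algebra S E := ((algebraMap R' E).comp ι).toAlgebra
  have i3 : IsScalarTower S R' E := IsScalarTower.of_algebraMap_eq fun _ => rfl
  have i4 : IsScalarTower S B E := IsScalarTower.of_algebraMap_eq fun s => (hι2 s).symm
  have i5 : Algebra.IsIntegral S R' := ⟨hι1⟩
  have hroot : IsPrimitiveRoot (-1 : E) 2 := by
    refine IsPrimitiveRoot.mk_of_lt _ (by norm_num) (by norm_num) ?_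
    intro l h0 h1
    have : l = 1 := by omega
    subst this
    rw [pow_one]
    intro h3
    apply h2
    have h4 : (1 : E) + 1 = 0 := by
      nth_rewrite 1 [← h3]
      ring
    rw [← h4]
    norm_num
  have h1 := Pool.Agent.H428.V.B.transfer (K := B) (S := S) (L := E) (A := R') Nat.prime_two
    (q := fun _ : I => 2) (f := fun l => F (i l))
    (fun l => ⟨-1, ⟨Nat.prime_two.isPrimePow, hroot, hm (i l), hs (i l),
      Nat.coprime_two_left.2 (hodd (i l))⟩⟩)
    (fun l => Pool.Agent.H428.W.shaTriv_of (fun c m h1 h2 h3 => (h (i l)).2 c m h1 h2 h3))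
    (fun l P => div_conv (h (i l)).1 P)
    A n hA
  exact ⟨h1.1, fun ho => h1.2 (Nat.coprime_two_left.2 ho)⟩

/-- Exceptional sets of tuples. -/
theorem tuples_bad {r : ℕ} {α : Type} (F : Fin r → Set α) (hF : ∀ j, (F j).Finite)
    (G : Fin r → α → Prop) (c : Fin r → ℝ)
    (h : ∀ j, ({f ∈ F j | ¬ G j f}.ncard : ℝ) ≤ c j * ((F j).ncard : ℝ)) :
    ({f : Fin r → α | (∀ j, f j ∈ F j) ∧ ¬ ∀ j, G j (f j)}.ncard : ℝ) ≤
      (∑ j, c j) * ({f : Fin r → α | ∀ j, f j ∈ F j}.ncard : ℝ) := by
  obtain ⟨U, hU⟩ : ∃ U : Fin r → Fin r → Set α, U = fun i => Function.update F i {x ∈ F i | ¬ G i x} :=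
    ⟨_, rfl⟩
  have hUi : ∀ i, U i i = {x ∈ F i | ¬ G i x} := fun i => by rw [hU]; exact Function.update_self _ _ _
  have hUj : ∀ i j, j ≠ i → U i j = F j := fun i j hj => by
    rw [hU]; exact Function.update_of_ne hj _ _
  have hUf : ∀ i j, (U i j).Finite := by
    intro i j
    by_cases hj : j = i
    · subst hj
      rw [hUi]
      exact (hF j).subset fun f hf => hf.1
    · rw [hUj i j hj]
      exact hF j
  obtain ⟨V, hV⟩ : ∃ V : Fin r → Set (Fin r → α), V = fun i => {f | ∀ j, f j ∈ U i j} := ⟨_, rfl⟩
  have hVc : ∀ i, (V i).Finite ∧ (V i).ncard = ∏ j, (U i j).ncard := fun i => by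
    rw [hV]
    exact Pool.Agent.H859.AL.ncard_tuples (U i) (hUf i)
  have hsub : {f : Fin r → α | (∀ j, f j ∈ F j) ∧ ¬ ∀ j, G j (f j)} ⊆ ⋃ i ∈ (Finset.univ : Finset (Fin r)), V i := by
    rintro f ⟨hf, hG⟩
    push Not at hG
    obtain ⟨i, hi⟩ := hG
    rw [Set.mem_iUnion₂]
    refine ⟨i, Finset.mem_univ _, ?_⟩
    rw [hV]
    intro j
    by_cases hj : j = i
    · subst hj
      rw [hUi]
      exact ⟨hf j, hi⟩
    · rw [hUj i j hj]
      exact hf j
  have hfinU : (⋃ i ∈ (Finset.univ : Finset (Fin r)), V i).Finite :=
    Set.Finite.biUnion (Finset.finite_toSet _) fun i _ => (hVc i).1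
  have h1 := Set.ncard_le_ncard hsub hfinU
  have h2 : (⋃ i ∈ (Finset.univ : Finset (Fin r)), V i).ncard ≤ ∑ i, (V i).ncard :=
    Finset.set_ncard_biUnion_le Finset.univ V
  have hT := (Pool.Agent.H859.AL.ncard_tuples F hF).2
  have h3 : ∀ i, ((V i).ncard : ℝ) ≤ c i * ({f : Fin r → α | ∀ j, f j ∈ F j}.ncard : ℝ) := by
    intro i
    rw [(hVc i).2, hT, Nat.cast_prod, Nat.cast_prod,
      ← Finset.mul_prod_erase Finset.univ (fun j => ((U i j).ncard : ℝ)) (Finset.mem_univ i),
      ← Finset.mul_prod_erase Finset.univ (fun j => ((F j).ncard : ℝ)) (Finset.mem_univ i), hUi i]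
    have e : ∏ j ∈ Finset.univ.erase i, ((U i j).ncard : ℝ) =
        ∏ j ∈ Finset.univ.erase i, ((F j).ncard : ℝ) :=
      Finset.prod_congr rfl fun j hj => by rw [hUj i j (Finset.ne_of_mem_erase hj)]
    rw [e, ← mul_assoc]
    exact mul_le_mul_of_nonneg_right (h i) (Finset.prod_nonneg fun j _ => Nat.cast_nonneg _)
  calc ({f : Fin r → α | (∀ j, f j ∈ F j) ∧ ¬ ∀ j, G j (f j)}.ncard : ℝ)
      ≤ ∑ i, ((V i).ncard : ℝ) := by exact_mod_cast h1.trans h2
    _ ≤ ∑ i, c i * ({f : Fin r → α | ∀ j, f j ∈ F j}.ncard : ℝ) := Finset.sum_le_sum fun i _ => h3 i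
    _ = _ := by rw [Finset.sum_mul]

/-- Let `k` be a finite field of odd characteristic, `K = k(t)`, `m ≠ 0`, and for `j < r` let
`1 ≤ g_j ≤ G` and `f₁_j` be monic of degree `2 g_j + 1` over `k[t]` such that the discriminant of `f₁_j` is
not divisible by the square of a prime divisor of `m`. (1) The family `F_N` has positive density in the set
of all tuples of the same height. (2) There is a constant `C` such that for EVERY finite set `T` of primes
of `k[t]` with residue fields of at least `4 G + 3` elements the following is true for all large `N`: all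
but at most `C (1 - 1 / (32 G)) ^ |T| |F_N|` members of `F_N` have divisors `D_j` of the product of the primes
in `T` such that for ALL the fields `M` which belong to the classes `C(f_j, T)` for all `j` and ALL the
fields `E` between `K` and `M` multiplication by two is bijective on all `J_j(E)` and the 2-primary parts of
the Tate-Shafarevich groups of all `J_j` over `E` are zero, where `J_j` is the quadratic twist by `D_j` of
the Jacobian of `y ^ 2 = f_j(x)`; and for ALL the fields `B` over which `E` is finite and Galois, and ALL the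
abelian varieties `A` over `B` which are factors of products of the `J_j` over `E`, the statements of
`HoldsForForms` are true. (3) For EVERY finite Galois extension `L` of `K` of 2-power degree which is
ramified only over prime divisors of `m` modulo which all `f₁_j` are irreducible there are infinitely many
primes of `k[t]` which split completely in `L`; and if all the primes in `T` do, then `L` belongs to all the
classes `C(f_j, T)` for all the members of `F_N`, for all `N`. -/
theorem result (G r : ℕ) (g : Fin r → ℕ) (hg : ∀ j, 1 ≤ g j) (hG : ∀ j, g j ≤ G)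
    (k : Type) [Field k] [Finite k] (hp : (2 : k) ≠ 0)
    (K : Type) [Field K] [Algebra k[X] K] [IsFractionRing k[X] K] (m : k[X]) (hm : m ≠ 0)
    (f₁ : Fin r → k[X][X]) (hf₁ : ∀ j, (f₁ j).Monic) (hd₁ : ∀ j, (f₁ j).natDegree = 2 * g j + 1)
    (hdisc : ∀ (j : Fin r) (P : k[X]), Irreducible P → P ∣ m → ¬ P ^ 2 ∣ (f₁ j).discr) :
    -- (1)
    ((∀ N : ℕ, (AllTuples k g N).Finite) ∧
      ∃ c : ℝ, 0 < c ∧ ∀ᶠ N : ℕ in atTop, 0 < (Tuples g m f₁ N).ncard ∧
        c * ((AllTuples k g N).ncard : ℝ) ≤ ((Tuples g m f₁ N).ncard : ℝ)) ∧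
    -- (2)
    (∃ C : ℝ, ∀ T : Finset k[X],
      (∀ Q ∈ T, Q.Monic ∧ Irreducible Q ∧ 4 * G + 3 ≤ Nat.card k ^ Q.natDegree) →
      ∀ᶠ N : ℕ in atTop, ({f ∈ Tuples g m f₁ N | ¬ HasGoodTwists K T f}.ncard : ℝ) ≤
        C * (1 - 1 / (32 * G)) ^ T.card * ((Tuples g m f₁ N).ncard : ℝ)) ∧
    -- (3)
    ∀ (L : Type) [Field L] [Algebra K L] [Algebra k[X] L] [IsScalarTower k[X] K L]
      [FiniteDimensional K L] [IsGalois K L] (R : Type) [CommRing R] [IsDedekindDomain R]
      [Algebra R L] [IsFractionRing R L] [Algebra k[X] R] [IsScalarTower k[X] R L]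
      [IsIntegralClosure R k[X] L], (∃ n : ℕ, Module.finrank K L = 2 ^ n) →
      (∀ P : k[X], Irreducible P → Unramified R P ∨ (P ∣ m ∧ ∀ j, IrreducibleMod (f₁ j) P)) →
      {Q : k[X] | Q.Monic ∧ Irreducible Q ∧ SplitsCompletely R Q}.Infinite ∧
      ∀ T : Finset k[X], (∀ Q ∈ T, SplitsCompletely R Q) →
        ∀ N : ℕ, ∀ f ∈ Tuples g m f₁ N, ∀ j, InClass K T (f j) L R := by
  have hall : ∀ g' N, Polynomials k g' N =
      {f : k[X][X] | Pool.Agent.H859.PJ.HtA g' (2 * N) f} := by
    intro g' N
    ext f
    exact ⟨fun h => ⟨h.1, h.2.1, h.2.2⟩, fun h => ⟨h.mon, h.deg, h.ht⟩⟩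
  have hfam : ∀ j N, Family (g j) m (f₁ j) N =
      Pool.Agent.H859.AL.Fam (g j) N (m ^ 2) (f₁ j) := by
    intro j N
    ext f
    constructor
    · rintro ⟨h1, h2, h3, h4⟩
      exact ⟨⟨h1.1, h1.2.1, h1.2.2⟩, (Pool.Agent.H859.AL.irrInf_iff N f).2 h2,
        (Pool.Agent.H859.AL.sq_discr h1.1 h1.2.1).2 h3, h4⟩
    · rintro ⟨h1, h2, h3, h4⟩
      exact ⟨⟨h1.mon, h1.deg, h1.ht⟩, (Pool.Agent.H859.AL.irrInf_iff N f).1 h2,
        (Pool.Agent.H859.AL.sq_discr h1.mon h1.deg).1 h3, h4⟩
  have hGM := fun j => Pool.Agent.H859.TWC.goodM_sq hm (hf₁ j) (hd₁ j) (hdisc j)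
  have hfin : ∀ g' N, (Polynomials k g' N).Finite := fun g' N => by
    rw [hall]
    exact (Pool.Agent.H859.N415.PJMAIN.ht_card (k := k) g' (2 * N)).1
  have hfinF : ∀ j N, (Family (g j) m (f₁ j) N).Finite := fun j N =>
    (hfin (g j) N).subset fun f hf => hf.1
  have hq : (0 : ℝ) < Nat.card k := by exact_mod_cast Nat.card_pos
  -- the density for each `j`
  have hpos : ∀ j, ∃ c : ℝ, 0 < c ∧ ∀ᶠ N : ℕ in atTop, 0 < (Family (g j) m (f₁ j) N).ncard ∧
      c * ((Polynomials k (g j) N).ncard : ℝ) ≤ ((Family (g j) m (f₁ j) N).ncard : ℝ) := by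
    intro j
    obtain ⟨c, hc, N₀, hN₀⟩ := Pool.Agent.H859.AL.fam_pos (hg j) hp (hGM j)
    refine ⟨c / (Nat.card k : ℝ) ^ (2 * g j + 1), by positivity, ?_⟩
    filter_upwards [eventually_ge_atTop N₀] with N hN
    obtain ⟨hF, hle⟩ := hN₀ N hN
    rw [hfam]
    have h1 : (0 : ℝ) < ((Pool.Agent.H859.AL.Fam (g j) N (m ^ 2) (f₁ j)).ncard : ℝ) :=
      lt_of_lt_of_le (by positivity) hle
    refine ⟨by exact_mod_cast h1, ?_⟩
    have h2 : ((Polynomials k (g j) N).ncard : ℝ) ≤
        (Nat.card k : ℝ) ^ (2 * N * Pool.Agent.H859.PJ.ddA (g j)) *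
          (Nat.card k : ℝ) ^ (2 * g j + 1) := by
      rw [hall, ← pow_add]
      exact_mod_cast (Pool.Agent.H859.N415.PJMAIN.ht_card (k := k) (g j) (2 * N)).2
    calc c / (Nat.card k : ℝ) ^ (2 * g j + 1) * ((Polynomials k (g j) N).ncard : ℝ)
        ≤ c / (Nat.card k : ℝ) ^ (2 * g j + 1) *
          ((Nat.card k : ℝ) ^ (2 * N * Pool.Agent.H859.PJ.ddA (g j)) *
            (Nat.card k : ℝ) ^ (2 * g j + 1)) := by gcongr
      _ = c * (Nat.card k : ℝ) ^ (2 * N * Pool.Agent.H859.PJ.ddA (g j)) := by field_simp
      _ ≤ _ := hle
  have hAll := fun N => Pool.Agent.H859.AL.ncard_tuples (fun j : Fin r => Polynomials k (g j) N)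
    fun j => hfin (g j) N
  have hTup := fun N => Pool.Agent.H859.AL.ncard_tuples
    (fun j : Fin r => Family (g j) m (f₁ j) N) fun j => hfinF j N
  refine ⟨⟨fun N => (hAll N).1, ?_⟩, ?_, ?_⟩
  · choose c hc hcN using hpos
    refine ⟨∏ j, c j, Finset.prod_pos fun j _ => hc j, ?_⟩
    filter_upwards [eventually_all.2 hcN] with N hN
    have e1 : (Tuples g m f₁ N).ncard = ∏ j, (Family (g j) m (f₁ j) N).ncard := (hTup N).2
    have e2 : (AllTuples k g N).ncard = ∏ j, (Polynomials k (g j) N).ncard := (hAll N).2
    rw [e1, e2]
    refine ⟨Finset.prod_pos fun j _ => (hN j).1, ?_⟩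
    rw [Nat.cast_prod, Nat.cast_prod, ← Finset.prod_mul_distrib]
    exact Finset.prod_le_prod (fun j _ => mul_nonneg (hc j).le (Nat.cast_nonneg _))
      fun j _ => (hN j).2
  · have hfa := fun j => Pool.Agent.H859.AL.final_almost (hg j) hp K (hGM j)
    choose C hC0 hC using hfa
    refine ⟨∑ j, |C j|, fun T hT => ?_⟩
    have hCj : ∀ j : Fin r, ∃ N₀ : ℕ, ∀ N ≥ N₀,
        ({f ∈ Pool.Agent.H859.AL.Fam (g j) N (m ^ 2) (f₁ j) |
          ¬ Pool.Agent.H859.AL.GoodTw K T f}.ncard : ℝ) ≤
          C j * (1 - 1 / (32 * (g j))) ^ T.card *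
            ((Pool.Agent.H859.AL.Fam (g j) N (m ^ 2) (f₁ j)).ncard : ℝ) := fun j =>
      hC j T fun Q hQ => ⟨(hT Q hQ).1, (hT Q hQ).2.1,
        (show 4 * g j + 3 ≤ Nat.card k ^ Q.natDegree from by
          have h1 := (hT Q hQ).2.2
          have h2 := hG j
          omega)⟩
    choose N₀ hN₀ using hCj
    filter_upwards [eventually_ge_atTop (Finset.univ.sup N₀)] with N hN
    have hb : ∀ j : Fin r, ({f ∈ Family (g j) m (f₁ j) N |
        ¬ Pool.Agent.H859.AL.GoodTw K T f}.ncard : ℝ) ≤
        |C j| * (1 - 1 / (32 * G)) ^ T.card * ((Family (g j) m (f₁ j) N).ncard : ℝ) := by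
      intro j
      have h1 := hN₀ j N ((Finset.le_sup (f := N₀) (Finset.mem_univ j)).trans hN)
      rw [hfam]
      refine h1.trans ?_
      have hg' : (1 : ℝ) ≤ g j := by exact_mod_cast hg j
      have hG' : (g j : ℝ) ≤ G := by exact_mod_cast hG j
      have hρ1 : (1 : ℝ) / (32 * g j) ≤ 1 / 32 := by
        apply one_div_le_one_div_of_le (by norm_num)
        linarith
      have hρ2 : (1 : ℝ) / (32 * G) ≤ 1 / (32 * g j) := by
        apply one_div_le_one_div_of_le (by linarith)
        linarith
      have hρ3 : (0 : ℝ) ≤ 1 - 1 / (32 * g j) := by linarith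
      have h2 : (1 - 1 / (32 * (g j : ℝ))) ^ T.card ≤ (1 - 1 / (32 * (G : ℝ))) ^ T.card :=
        pow_le_pow_left₀ hρ3 (by linarith) _
      exact mul_le_mul_of_nonneg_right (mul_le_mul (le_abs_self _) h2 (pow_nonneg hρ3 _)
        (abs_nonneg _)) (Nat.cast_nonneg _)
    have h3 := tuples_bad (fun j : Fin r => Family (g j) m (f₁ j) N) (fun j => hfinF j N)
      (fun _ f => Pool.Agent.H859.AL.GoodTw K T f)
      (fun j => |C j| * (1 - 1 / (32 * G)) ^ T.card) hb
    rw [Finset.sum_mul]
    refine le_trans ?_ h3
    have hfinT : {f : Fin r → k[X][X] | (∀ j, f j ∈ Family (g j) m (f₁ j) N) ∧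
        ¬ ∀ j, Pool.Agent.H859.AL.GoodTw K T (f j)}.Finite :=
      (hTup N).1.subset fun f hf => hf.1
    have hsub : {f ∈ Tuples g m f₁ N | ¬ HasGoodTwists K T f} ⊆
        {f : Fin r → k[X][X] | (∀ j, f j ∈ Family (g j) m (f₁ j) N) ∧
          ¬ ∀ j, Pool.Agent.H859.AL.GoodTw K T (f j)} := by
      rintro f ⟨hf, hno⟩
      refine ⟨hf, fun hgt => hno ?_⟩
      have huse := fun j : Fin r => Pool.Agent.H859.AL.good_use hp K
        (fun Q hQ => ⟨(hT Q hQ).1, (hT Q hQ).2.1⟩)
        (show Pool.Agent.H859.PJ.HtA (g j) (2 * N) (f j) from by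
          have := hf j
          rw [hfam] at this
          exact this.1)
        (show _ from by
          have := hf j
          rw [hfam] at this
          exact this.2.1)
        (show _ from by
          have := hf j
          rw [hfam] at this
          exact this.2.2.1) (hgt j)
      choose D hD h using huse
      refine ⟨D, hD, ?_⟩
      intro M _ _ _ _ _ _ R _ _ _ _ _ _ _ hM E R' _ _ _ _ _ _ _
      have hno : ∀ j : Fin r,
          NoTwoPart R' (((f j).scaleRoots (D j)).map (algebraMap k[X] E)) := by
        intro j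
        obtain ⟨n, hn⟩ := (hM j).degree
        exact h j M R n hn (fun Q hQ w hw => ⟨((hM j).splits Q hQ).1 w hw,
          ((hM j).splits Q hQ).2 w hw⟩) (hM j).ramified E R'
      refine ⟨hno, ?_⟩
      haveI : IsScalarTower k[X] K E := IntermediateField.isScalarTower _
      have hTn : (∏ Q ∈ T, Q) ≠ 0 :=
        Finset.prod_ne_zero_iff.2 fun Q hQ => (hT Q hQ).2.1.ne_zero
      have hD0 : ∀ j, D j ≠ 0 := fun j h0 => hTn (zero_dvd_iff.1 (h0 ▸ hD j))
      have hFj : ∀ j, f j ∈ Pool.Agent.H859.AL.Fam (g j) N (m ^ 2) (f₁ j) := fun j => by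
        have := hf j
        rwa [hfam] at this
      have hmon : ∀ j, ((f j).scaleRoots (D j)).Monic := fun j =>
        (monic_scaleRoots_iff _).2 (hFj j).1.mon
      have hinj : Function.Injective (algebraMap k[X] E) := by
        rw [IsScalarTower.algebraMap_eq k[X] K E]
        exact (algebraMap K E).injective.comp (IsFractionRing.injective k[X] K)
      refine forms_of ?_ (fun j => (hmon j).map _) (fun j => ?_) (fun j => ?_) hno
      · have h3 : (2 : k[X]) ≠ 0 := by
          intro h4
          apply hp
          have h5 := congrArg (fun p : k[X] => p.coeff 0) h4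
          simpa using h5
        have h6 : algebraMap k[X] E 2 ≠ 0 := fun h7 => h3 (hinj (h7.trans (map_zero _).symm))
        rwa [map_ofNat] at h6
      · show Odd (((f j).scaleRoots (D j)).map (algebraMap k[X] E)).natDegree
        rw [(hmon j).natDegree_map, natDegree_scaleRoots, (hFj j).1.deg]
        exact odd_two_mul_add_one _
      · show (((f j).scaleRoots (D j)).map (algebraMap k[X] E)).Separable
        obtain ⟨q, hq1, hq2⟩ := (hFj j).2.1
        obtain ⟨-, -, i3⟩ := Pool.Agent.H859.N874.JM.parts.irk (g j) k K (f j) N q (D j)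
          (hFj j).1 hq1 hq2 (hD0 j)
        have hsep := (i3 (hFj j).2.2.1.ne_zero).2
        have h8 : ((f j).scaleRoots (D j)).map (algebraMap k[X] E) =
            (((f j).scaleRoots (D j)).map (algebraMap k[X] K)).map (algebraMap K E) := by
          rw [Polynomial.map_map, ← IsScalarTower.algebraMap_eq k[X] K E]
        rw [h8]
        exact hsep.map
    exact_mod_cast Set.ncard_le_ncard hsub hfinT
  · intro L _ _ _ _ _ _ R _ _ _ _ _ _ _ hn hram
    refine ⟨fun hfin => ?_, fun T hT N f hf j => ?_⟩
    · haveI : Algebra.IsSeparable K L := IsGalois.to_isSeparable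
      obtain ⟨S, hcard, hS⟩ := Pool.Agent.H859.AL.exists_T (k := k) (K := K) L R 0
        (hfin.toFinset.card + 1)
      have hsub : S ⊆ hfin.toFinset := by
        intro Q hQ
        rw [Set.Finite.mem_toFinset]
        exact ⟨(hS Q hQ).1, (hS Q hQ).2.1, fun w hw => ((hS Q hQ).2.2.1 w hw).1,
          fun w hw => ((hS Q hQ).2.2.1 w hw).2⟩
      have := Finset.card_le_card hsub
      omega
    · refine ⟨hn, hT, fun P hP => ?_⟩
      rcases hram P hP with h | ⟨h, h'⟩
      · exact Or.inl h
      · right
        have hc : Pool.Agent.N352.PJ.Cg P (f j) (f₁ j) := fun l =>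
          (h.trans (dvd_pow_self m two_ne_zero)).trans ((hf j).2.2.2 l)
        show Irreducible ((f j).map (Ideal.Quotient.mk (Ideal.span {P})))
        rw [Pool.Agent.H859.TWC.cg_map hc]
        exact h' j

end Pool.Agent.Results.MP_60d5ce_nt.SmallTwistOfAlmostAll
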